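import Pool.Agent.W458.RK.Final

/-!
# MP_16ef92_ag: semisimplicity for the products of almost all members with all varieties

Let `Y` be a smooth projective variety over an algebraic closure of a finite field whose
cohomology is spanned by algebraic classes, for example a projective space. Let `F i`, for `i` in a
finite set, be families of varieties `X_s` over `Y`, whose cohomology is the sum of the pull-back
of the cohomology of `Y` and of a subspace `P_s` of the cohomology of degree `dim X_s`, with large
symplectic or orthogonal monodromy. Let `E` be a number field in the complex numbers, and let `r`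
be smaller than the degrees of the real Weil polynomials of the members.

Then for all `ε > 0` and all large `m`, for all but at most `ε * ∏ i, #S_i(m)` of the tuples `s` in
the product of the sets `S_i(m)` of the parameters with coordinates in the field with `p ^ m`
elements, for **all products** `X` of copies of `Y` and of the members `X_{i, s_i}` and for **all**
varieties `U` (singular, not proper) for which the eigenvalues of the Frobenius endomorphism on the
etale homology `V` of `U` have rank at most `r` over `E`: the semisimplicity of the eigenvalue
`q ^ c` of the Frobenius endomorphism on the homology `H(X) ⊗ V` of `X × U`, over all finite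
extensions, follows from the semisimplicity of the eigenvalues `q ^ (c - i)`, `i ≤ dim X`, on `V`,
over all finite extensions. No case of the Tate conjecture is assumed.
-/

open CategoryTheory AlgebraicGeometry Polynomial

universe u v

namespace Pool.Agent.Results.MP_16ef92_ag.AlmostAllProducts

open Pool.Agent.H914 Pool.Agent.W534 Pool.Agent.W458.MF VarClass Obj WeilCohomology
  Pool.Agent.H281R3.HT Pool.Agent.W458.RK

/-- **Semisimplicity for the products of almost all members with all varieties of small Frobenius
rank.** -/
theorem result {k : Type u} [Field k] {𝒱 : VarClass k} {ops : CycleOps 𝒱}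
    (W : WeilCohomology.{u, v} ops) [IsAlgClosed W.K] (σ : W.K →+* ℂ) (p : ℕ)
    (hp : p.Prime) (Φ : FrobSystem W p) (Y : 𝒱.Obj) (hY : ∀ x : W.H Y, x ∈ algSpan W Y)
    {I : Type} [Fintype I] (F : I → Family W Y) (e : I → ℕ)
    (hF : ∀ i, Pol.HasLargeMonodromy (F i) Φ (e i)) (E : Subfield ℂ) [NumberField E] (r : ℕ)
    (hr : ∀ i m (s : (F i).S m), r < ((F i).member m s).pol.natDegree) (ε : ℝ) (hε : 0 < ε) :
    ∃ m₀ : ℕ, ∀ m ≥ m₀, ((exceptions F m fun X => SemisimpleTimes Φ σ E r X).ncard : ℝ) ≤
      ε * ∏ i, (Nat.card ((F i).S m) : ℝ) :=
  final_semisimple_times W σ p hp Φ Y hY F e hF E r hr ε hε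

end Pool.Agent.Results.MP_16ef92_ag.AlmostAllProducts
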