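import Mathlib
import Pool.Agent.W484.AA.Mixed

/-!
# Semisimplicity of the eigenvalue 1 on products of almost all abelian varieties with varieties of
small rank

Let `g i` (`i` in a finite set `I`) be positive integers and `r` an integer smaller than all the
`g i`.  For a prime power `q` let `S i` be the set of the characteristic polynomials of Frobenius
of the ordinary abelian varieties of dimension `g i` over the field with `q` elements, or of all
abelian varieties of dimension `g i`, or any set in between.

For all families `f i` in `S i` with the exception of a proportion `O (q ^ (-1 / 6) log q)` the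
following holds for all abelian varieties `A` over the field with `q` elements, isogenous to a
product of powers of abelian varieties `A i` with characteristic polynomials `f i`, all `s > 0`, and
**all** varieties `Z` over the field with `Q = q ^ s` elements, singular, open or reducible, such
that the eigenvalues of Frobenius on the etale homology `H_m (Z)` and their conjugates generate a
group of rank at most `r` modulo the powers of `q` (`SmallRank`): the eigenvalue `Q ^ c` of Frobenius
on `H ^ n (A) ⊗ H_m (Z)` is semisimple if `n` is odd, and if `n = 2 k` is even, then it is
semisimple if the eigenvalue `Q ^ (c - k)` on `H_m (Z)` is. In other words: `SS_i (A × Z)` for all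
`i` follows from `SS_i (Z)` for all `i`, nothing being assumed on the other eigenvalues for `Z`.

Here `V` is the first cohomology of `A` with the Frobenius endomorphism `F` of the field with `q`
elements, `H` is `H_m (Z)` with its Frobenius endomorphism `G`.
-/

set_option autoImplicit false

namespace Pool.Agent.Results.MP_16ef92_ag.ProductsWithAlmostAll

open Polynomial Pool.Agent.W521.Descent Pool.Agent.W521.Count Pool.Agent.W484.AA

/-- `weilPolys q g` is the set of monic integral polynomials of degree `2 g` with constant term
`q ^ g` and all roots of absolute value `√q`; `ordinaryWeilPolys q g` is the subset of those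
whose coefficient of index `g` is prime to `q`. -/
theorem result {I : Type} [Fintype I] (g : I → ℕ) (r : ℕ) (hr : ∀ i, r < g i) :
    ∃ C : ℝ, ∀ q : ℕ, IsPrimePow q → ∀ S : I → Set ℤ[X],
      (∀ i, ordinaryWeilPolys q (g i) ⊆ S i ∧ S i ⊆ weilPolys q (g i)) →
      (∀ i, (S i).Finite ∧ (S i).Nonempty) ∧
      ({f : I → ℤ[X] | (∀ i, f i ∈ S i) ∧ ¬ SemisimpleForSmallRank q r f}.ncard : ℝ) ≤
        C * (Real.log q * (q : ℝ) ^ (-(1 / 6) : ℝ)) * ∏ i, ((S i).ncard : ℝ) :=
  count_of_good g (fun i => (Nat.zero_le r).trans_lt (hr i))
    (fun q f => SemisimpleForSmallRank q r f)
    fun _ hq x hx => semisimpleForSmallRank_of_good g hq.pos.ne' r hr x hx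

end Pool.Agent.Results.MP_16ef92_ag.ProductsWithAlmostAll
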